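import Pool.Agent.C75W.Im

/-!
MP_c75db0, complex line route: all powers of a critical cycle form one quadratic family
(helper4's observation, typed here).
-/

set_option autoImplicit false

namespace Pool.Agent.Helper42.CH

open Matrix

variable {n : Type*} [Fintype n] [DecidableEq n]

/-- the parameter `A_{m+1}`; `powA t 0 = A_1 = 1` -/
noncomputable def powA (t : ℂ) : ℕ → ℂ
  | 0 => 1
  | m + 1 => (powA t m + t) / (1 + powA t m)

/-- the scalar `c_{m+1}` -/
noncomputable def powC (k t : ℂ) : ℕ → ℂ
  | 0 => 1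
  | m + 1 => powC k t m * ((k + 1) * (1 + powA t m) ^ 2 / 2)

/-- `B = ((k+1) A^2 - (k-1))/2` -/
noncomputable def powB (k A : ℂ) : ℂ := ((k + 1) * A ^ 2 - (k - 1)) / 2

section algebra

variable (W W' : Matrix n n ℂ) (k : ℂ)

/-- even part minus one -/
noncomputable def Z2 : Matrix n n ℂ := (1 / 2 : ℂ) • (W + W') - 1

/-- odd part -/
noncomputable def Z1 : Matrix n n ℂ := (1 / 2 : ℂ) • (W - W')

variable {W W' k}

omit [Fintype n] in
theorem W_eq : W = 1 + Z2 W W' + Z1 W W' := by
  unfold Z2 Z1
  ext i j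
  simp only [Matrix.add_apply, Matrix.sub_apply, Matrix.smul_apply, smul_eq_mul]
  ring

omit [Fintype n] in
theorem W'_eq : W' = 1 + Z2 W W' - Z1 W W' := by
  unfold Z2 Z1
  ext i j
  simp only [Matrix.add_apply, Matrix.sub_apply, Matrix.smul_apply, smul_eq_mul]
  ring

/-- the relations in the algebra generated by `Z1, Z2` -/
theorem Z_rel (h1 : W * W' = 1) (hmin : (W - 1) * (W + W' - (2 * k) • (1 : Matrix n n ℂ)) = 0) :
    Z2 W W' * Z2 W W' = (k - 1) • Z2 W W' ∧
    Z1 W W' * Z2 W W' = (k - 1) • Z1 W W' ∧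
    Z2 W W' * Z1 W W' = (k - 1) • Z1 W W' ∧
    Z1 W W' * Z1 W W' = (k + 1) • Z2 W W' := by
  have h2 : W' * W = 1 := mul_eq_one_comm.1 h1
  set P := Z2 W W' with hP
  set S := Z1 W W' with hS
  have eW : W = 1 + P + S := W_eq
  have eW' : W' = 1 + P - S := W'_eq
  -- commutation
  have c1 : (1 + P + S) * (1 + P - S) = 1 := by rw [← eW, ← eW']; exact h1
  have c2 : (1 + P - S) * (1 + P + S) = 1 := by rw [← eW, ← eW']; exact h2
  have hcomm : P * S = S * P := by
    have e1 : (1 + P + S) * (1 + P - S) = 1 + (P + P) + P * P - P * S + S * P - S * S := by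
      noncomm_ring
    have e2 : (1 + P - S) * (1 + P + S) = 1 + (P + P) + P * P + P * S - S * P - S * S := by
      noncomm_ring
    rw [e1] at c1
    rw [e2] at c2
    have : (2 : ℂ) • (P * S) = (2 : ℂ) • (S * P) := by
      rw [two_smul, two_smul]
      have h3 := c1.trans c2.symm
      have h4 : S * P + S * P - (P * S + P * S) = 0 := by
        have : S * P + S * P - (P * S + P * S)
          = (1 + (P + P) + P * P - P * S + S * P - S * S)
            - (1 + (P + P) + P * P + P * S - S * P - S * S) := by noncomm_ring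
        rw [this, h3, sub_self]
      rw [sub_eq_zero] at h4
      exact h4.symm
    exact smul_right_injective _ (two_ne_zero) this
  have hsq : S * S = P * P + (P + P) := by
    have e1 : (1 + P + S) * (1 + P - S) = 1 + (P + P) + P * P - P * S + S * P - S * S := by
      noncomm_ring
    rw [e1, hcomm] at c1
    have : S * S = (1 + (P + P) + P * P - S * P + S * P - S * S) - 1 + S * S
        - 0 := by rw [c1]; simp
    rw [this]
    noncomm_ring
  -- minimal polynomial
  have m1 : (P + S) * (P - (k - 1) • (1 : Matrix n n ℂ)) = 0 := by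
    have : (W - 1) * (W + W' - (2 * k) • (1 : Matrix n n ℂ))
        = (2 : ℂ) • ((P + S) * (P - (k - 1) • (1 : Matrix n n ℂ))) := by
      rw [eW, eW', ← mul_smul_comm]
      congr 1
      · abel
      · ext i j
        simp only [Matrix.add_apply, Matrix.sub_apply, Matrix.smul_apply, smul_eq_mul]
        ring
    rw [hmin] at this
    have h0 := smul_eq_zero.1 this.symm
    rcases h0 with h0 | h0
    · exact absurd h0 two_ne_zero
    · exact h0
  -- the same for the inverse: multiply by `-W'`
  have m2 : (P - S) * (P - (k - 1) • (1 : Matrix n n ℂ)) = 0 := by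
    have e : (P - S) = -((1 + P - S) * (P + S)) := by
      have : (1 + P - S) * (P + S) = (1 + P - S) * (1 + P + S) - (1 + P - S) := by noncomm_ring
      rw [this, c2]
      abel
    rw [e, neg_mul, mul_assoc, m1, mul_zero, neg_zero]
  have m3 : P * (P - (k - 1) • (1 : Matrix n n ℂ)) = 0 := by
    have : (2 : ℂ) • (P * (P - (k - 1) • (1 : Matrix n n ℂ)))
        = (P + S) * (P - (k - 1) • (1 : Matrix n n ℂ))
          + (P - S) * (P - (k - 1) • (1 : Matrix n n ℂ)) := by
      rw [← add_mul]
      have e : P + S + (P - S) = P + P := by abel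
      rw [e, add_mul, two_smul]
    rw [m1, m2, add_zero] at this
    rcases smul_eq_zero.1 this with h0 | h0
    · exact absurd h0 two_ne_zero
    · exact h0
  have m4 : S * (P - (k - 1) • (1 : Matrix n n ℂ)) = 0 := by
    have : (P + S) * (P - (k - 1) • (1 : Matrix n n ℂ))
        = P * (P - (k - 1) • (1 : Matrix n n ℂ)) + S * (P - (k - 1) • (1 : Matrix n n ℂ)) := by
      rw [add_mul]
    rw [m1, m3, zero_add] at this
    exact this.symm
  have r1 : P * P = (k - 1) • P := by
    rw [mul_sub, mul_smul_comm, mul_one, sub_eq_zero] at m3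
    exact m3
  have r2 : S * P = (k - 1) • S := by
    rw [mul_sub, mul_smul_comm, mul_one, sub_eq_zero] at m4
    exact m4
  refine ⟨r1, r2, hcomm.trans r2, ?_⟩
  rw [hsq, r1]
  ext i j
  simp only [Matrix.add_apply, Matrix.smul_apply, smul_eq_mul]
  ring

/-- all powers -/
theorem pow_eq (h1 : W * W' = 1)
    (hmin : (W - 1) * (W + W' - (2 * k) • (1 : Matrix n n ℂ)) = 0) (hk : k + 1 ≠ 0)
    (hA : ∀ m, 1 + powA ((k - 1) / (k + 1)) m ≠ 0) (m : ℕ) :
    powC k ((k - 1) / (k + 1)) m ≠ 0 ∧
    W ^ (m + 1) = powC k ((k - 1) / (k + 1)) m •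
      (Z2 W W' + powA ((k - 1) / (k + 1)) m • Z1 W W'
        + powB k (powA ((k - 1) / (k + 1)) m) • (1 : Matrix n n ℂ)) := by
  obtain ⟨r1, r2, r3, r4⟩ := Z_rel h1 hmin
  set t := (k - 1) / (k + 1) with ht
  have hkt : (k + 1) * t = k - 1 := by rw [ht]; field_simp
  induction m with
  | zero =>
    refine ⟨by simp [powC], ?_⟩
    simp only [powC, powA, powB, one_smul, zero_add, pow_one]
    have : ((k + 1) * 1 ^ 2 - (k - 1)) / 2 = (1 : ℂ) := by ring
    rw [this, one_smul]
    conv_lhs => rw [W_eq (W := W) (W' := W')]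
    abel
  | succ m ih =>
    obtain ⟨ihc, ihW⟩ := ih
    set A := powA t m with hAm
    set c := powC k t m with hcm
    have hA1 : 1 + A ≠ 0 := hA m
    refine ⟨?_, ?_⟩
    · simp only [powC]
      refine mul_ne_zero ihc ?_
      apply div_ne_zero (mul_ne_zero hk (pow_ne_zero 2 hA1)) two_ne_zero
    · rw [pow_succ, ihW]
      set P := Z2 W W' with hP
      set S := Z1 W W' with hS
      have eW : W = 1 + P + S := W_eq
      rw [eW]
      have expand : (P + A • S + powB k A • (1 : Matrix n n ℂ)) * (1 + P + S)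
          = (P + P * P + P * S) + A • (S + S * P + S * S)
            + powB k A • (1 + P + S) := by
        simp only [add_mul, mul_add, mul_one, smul_mul_assoc, one_mul, smul_add]
        abel
      rw [smul_mul_assoc, expand, r1, r2, r3, r4]
      simp only [powC, powA]
      rw [← hAm, ← hcm]
      have hstep : (P + (k - 1) • P + (k - 1) • S) + A • (S + (k - 1) • S + (k + 1) • P)
            + powB k A • (1 + P + S)
          = ((k + 1) * (1 + A) ^ 2 / 2) • (P + ((A + t) / (1 + A)) • S
            + powB k ((A + t) / (1 + A)) • (1 : Matrix n n ℂ)) := by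
        have eP : 1 + (k - 1) + A * (k + 1) + powB k A = (k + 1) * (1 + A) ^ 2 / 2 := by
          unfold powB; ring
        have eS : (k - 1) + A * (1 + (k - 1)) + powB k A
            = ((k + 1) * (1 + A) ^ 2 / 2) * ((A + t) / (1 + A)) := by
          have : ((k + 1) * (1 + A) ^ 2 / 2) * ((A + t) / (1 + A))
              = (1 + A) * ((k + 1) * A + (k + 1) * t) / 2 := by field_simp
          rw [this, hkt]
          unfold powB; ring
        have e1 : powB k A
            = ((k + 1) * (1 + A) ^ 2 / 2) * powB k ((A + t) / (1 + A)) := by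
          have h2 : ((k + 1) * (1 + A) ^ 2 / 2) * powB k ((A + t) / (1 + A))
              = ((k + 1) * A + (k + 1) * t) ^ 2 / 4 - (k + 1) * (1 + A) ^ 2 * (k - 1) / 4 := by
            unfold powB
            field_simp
            ring
          rw [h2, hkt]
          unfold powB; ring
        ext i j
        simp only [Matrix.add_apply, Matrix.smul_apply, smul_eq_mul]
        linear_combination (P i j) * eP + (S i j) * eS + ((1 : Matrix n n ℂ) i j) * e1
      rw [hstep, smul_smul]

end algebra

/-- the half plane is preserved -/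
theorem powA_re {t : ℂ} (ht : t.im ^ 2 ≤ 4 * t.re) (m : ℕ) : 0 ≤ (powA t m).re := by
  have ht0 : 0 ≤ t.re := by nlinarith [sq_nonneg t.im]
  induction m with
  | zero => simp [powA]
  | succ m ih =>
    simp only [powA]
    set A := powA t m with hA
    have hne : (1 + A) ≠ 0 := by
      intro h
      have := congrArg Complex.re h
      simp at this
      linarith
    have hpos : 0 < Complex.normSq (1 + A) := Complex.normSq_pos.2 hne
    rw [Complex.div_re, ← add_div]
    apply div_nonneg _ hpos.le
    simp only [Complex.add_re, Complex.add_im, Complex.one_re, Complex.one_im]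
    -- Re ((A+t) conj(1+A)) = a + a^2 + y^2 + t.re (1+a) + t.im y
    nlinarith [sq_nonneg (A.im + t.im / 2), mul_nonneg ih ht0, sq_nonneg A.re]

/-- `Re k ≥ 1` is enough -/
theorem tau_cond {k : ℂ} (hk : 1 ≤ k.re) :
    ((k - 1) / (k + 1)).im ^ 2 ≤ 4 * ((k - 1) / (k + 1)).re := by
  have hne : (k + 1) ≠ 0 := by
    intro h
    have := congrArg Complex.re h
    simp at this
    linarith
  have hpos : 0 < Complex.normSq (k + 1) := Complex.normSq_pos.2 hne
  rw [Complex.div_im, Complex.div_re]
  set q := Complex.normSq (k + 1) with hq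
  have hq' : q = (k.re + 1) ^ 2 + k.im ^ 2 := by
    rw [hq, Complex.normSq_apply]; simp; ring
  simp only [Complex.sub_re, Complex.sub_im, Complex.add_re, Complex.add_im, Complex.one_re,
    Complex.one_im, sub_zero, add_zero]
  rw [← sub_div, ← add_div, div_pow, mul_div_assoc', div_le_div_iff₀ (by positivity) hpos]
  have e1 : k.im * (k.re + 1) - (k.re - 1) * k.im = 2 * k.im := by ring
  rw [e1]
  have hq1 : 1 ≤ q := by rw [hq']; nlinarith [sq_nonneg k.im]
  have e2 : (k.re - 1) * (k.re + 1) + k.im * k.im = (k.re ^ 2 - 1) + k.im ^ 2 := by ring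
  rw [e2]
  have h3 : 0 ≤ k.re ^ 2 - 1 := by nlinarith
  have h4 : k.im ^ 2 ≤ (k.re ^ 2 - 1) + k.im ^ 2 := by linarith
  calc (2 * k.im) ^ 2 * q = 4 * (k.im ^ 2 * q) := by ring
    _ ≤ 4 * (((k.re ^ 2 - 1) + k.im ^ 2) * (q * q)) := by
        have : k.im ^ 2 * q ≤ ((k.re ^ 2 - 1) + k.im ^ 2) * (q * q) := by
          have h5 : q ≤ q * q := by nlinarith
          apply mul_le_mul h4 h5 (by positivity) (by positivity)
        linarith
    _ = 4 * ((k.re ^ 2 - 1) + k.im ^ 2) * q ^ 2 := by ring

theorem one_add_powA_ne {k : ℂ} (hk : 1 ≤ k.re) (m : ℕ) :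
    1 + powA ((k - 1) / (k + 1)) m ≠ 0 := by
  intro h
  have h1 := powA_re (tau_cond hk) m
  have := congrArg Complex.re h
  simp at this
  linarith

theorem add_one_ne {k : ℂ} (hk : 1 ≤ k.re) : k + 1 ≠ 0 := by
  intro h
  have := congrArg Complex.re h
  simp at this
  linarith

/-- all powers, without side conditions -/
theorem pow_eq' {W W' : Matrix n n ℂ} {k : ℂ} (h1 : W * W' = 1)
    (hmin : (W - 1) * (W + W' - (2 * k) • (1 : Matrix n n ℂ)) = 0) (hk : 1 ≤ k.re) (m : ℕ) :
    powC k ((k - 1) / (k + 1)) m ≠ 0 ∧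
    W ^ (m + 1) = powC k ((k - 1) / (k + 1)) m •
      (Z2 W W' + powA ((k - 1) / (k + 1)) m • Z1 W W'
        + powB k (powA ((k - 1) / (k + 1)) m) • (1 : Matrix n n ℂ)) :=
  pow_eq h1 hmin (add_one_ne hk) (one_add_powA_ne hk) m

/-- trapping of the parameters in finitely many regions -/
theorem powA_trap {t : ℂ} {K : ℕ} (R : ℕ → Set ℂ) (h0 : (1 : ℂ) ∈ R 0)
    (hstep : ∀ i < K, ∀ A ∈ R i, (A + t) / (1 + A) ∈ R (i + 1))
    (hlast : ∀ A ∈ R K, (A + t) / (1 + A) ∈ R K) (m : ℕ) : powA t m ∈ R (min m K) := by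
  induction m with
  | zero => simpa [powA] using h0
  | succ m ih =>
    simp only [powA]
    rcases lt_or_ge m K with h | h
    · rw [Nat.min_eq_left h.le] at ih
      rw [Nat.min_eq_left (by omega)]
      exact hstep m h _ ih
    · rw [Nat.min_eq_right h] at ih
      rw [Nat.min_eq_right (by omega)]
      exact hlast _ ih

end Pool.Agent.Helper42.CH
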