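import Mathlib

/-!
MP_c75db0, complex line route: the values on the boundary control the values inside.
-/

set_option autoImplicit false

namespace Pool.Agent.Helper42.CH

open Complex Set

/-- a holomorphic function with boundary values off the ray `(-∞,0]` has all values off the ray -/
theorem slit_of_frontier {U : Set ℂ} (hU : IsOpen U) (hb : Bornology.IsBounded U)
    (hc : IsPreconnected U) {q : ℂ → ℂ} (hq : DifferentiableOn ℂ q U)
    (hcont : ContinuousOn q (closure U)) (hbd : ∀ w ∈ frontier U, q w ∈ slitPlane) :
    ∀ w ∈ closure U, q w ∈ slitPlane := by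
  by_contra hcon
  push Not at hcon
  obtain ⟨w₁, hw₁, hq₁⟩ := hcon
  have hK : IsCompact (closure U) := hb.isCompact_closure
  -- the bad set
  set T : Set ℂ := closure U ∩ q ⁻¹' (slitPlaneᶜ) with hT
  have hTc : IsCompact T := by
    have : IsClosed T := hcont.preimage_isClosed_of_isClosed isClosed_closure
      isOpen_slitPlane.isClosed_compl
    exact hK.of_isClosed_subset this inter_subset_left
  have hTne : T.Nonempty := ⟨w₁, hw₁, hq₁⟩
  have hTsub : T ⊆ closure U := inter_subset_left
  obtain ⟨w₀, hw₀, hmin⟩ := hTc.exists_isMinOn hTne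
    ((continuous_re.comp_continuousOn (hcont.mono hTsub)))
  have hw₀c : w₀ ∈ closure U := hw₀.1
  have hw₀s : q w₀ ∉ slitPlane := hw₀.2
  have hw₀U : w₀ ∈ U := by
    by_contra h
    have : w₀ ∈ frontier U := by
      rw [hU.frontier_eq]
      exact ⟨hw₀c, h⟩
    exact hw₀s (hbd _ this)
  have hre : (q w₀).re ≤ 0 ∧ (q w₀).im = 0 := by
    rw [mem_slitPlane_iff] at hw₀s
    push Not at hw₀s
    exact hw₀s
  have han : AnalyticOnNhd ℂ q U := hq.analyticOnNhd hU
  rcases (han w₀ hw₀U).eventually_constant_or_nhds_le_map_nhds with hconst | hopen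
  · -- constant case
    have heq : EqOn q (fun _ => q w₀) U :=
      han.eqOn_of_preconnected_of_eventuallyEq analyticOnNhd_const hc hw₀U hconst
    have heqc : EqOn q (fun _ => q w₀) (closure U) := by
      intro w hw
      have h1 : ContinuousWithinAt q U w := (hcont w hw).mono subset_closure
      have h2 : (nhdsWithin w U).NeBot := mem_closure_iff_nhdsWithin_neBot.mp hw
      have h3 : Filter.Tendsto q (nhdsWithin w U) (nhds (q w₀)) := by
        refine Filter.Tendsto.congr' ?_ tendsto_const_nhds
        filter_upwards [self_mem_nhdsWithin] with v hv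
        exact (heq hv).symm
      exact tendsto_nhds_unique h1 h3
    have hfr : (frontier U).Nonempty := by
      rw [Set.nonempty_iff_ne_empty]
      intro hemp
      have hcl : IsClopen U := by
        rw [isClopen_iff_frontier_eq_empty]
        exact hemp
      rcases isClopen_iff.mp hcl with h0 | h1
      · rw [h0] at hw₀U; exact hw₀U
      · rw [h1] at hb
        exact NormedSpace.unbounded_univ ℝ ℂ hb
    obtain ⟨v, hv⟩ := hfr
    have := hbd v hv
    rw [heqc (frontier_subset_closure hv)] at this
    exact hw₀s this
  · -- open case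
    have hUn : U ∈ nhds w₀ := hU.mem_nhds hw₀U
    have himg : q '' U ∈ nhds (q w₀) := hopen (Filter.image_mem_map hUn)
    rw [Metric.mem_nhds_iff] at himg
    obtain ⟨ε, hε, hball⟩ := himg
    have hmem : q w₀ - (ε / 2 : ℝ) ∈ Metric.ball (q w₀) ε := by
      rw [Metric.mem_ball, dist_eq_norm]
      have : q w₀ - ((ε / 2 : ℝ) : ℂ) - q w₀ = -((ε / 2 : ℝ) : ℂ) := by ring
      rw [this, norm_neg, norm_real, Real.norm_of_nonneg (by positivity)]
      linarith
    obtain ⟨w, hwU, hw⟩ := hball hmem
    have hwT : w ∈ T := by
      refine ⟨subset_closure hwU, ?_⟩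
      change q w ∉ slitPlane
      rw [hw, mem_slitPlane_iff]
      push Not
      constructor
      · simp only [sub_re, ofReal_re]; linarith [hre.1]
      · simp [hre.2]
    have h5 : (q w₀).re ≤ (q w).re := hmin hwT
    rw [hw] at h5
    simp only [sub_re, ofReal_re] at h5
    linarith

end Pool.Agent.Helper42.CH
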