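import Mathlib

/-!
MP_c75db0, complex line route: quotients of values of a functional on a convex set.
-/

set_option autoImplicit false

namespace Pool.Agent.Helper42.CH

open Complex Set

/-- a functional without zero on a convex set takes values in an open half plane seen from any of
its values: the quotient of two values is never in `(-∞,0]` -/
theorem ratio_slit {E : Type*} [AddCommGroup E] [Module ℂ E] [Module ℝ E] [IsScalarTower ℝ ℂ E]
    {B : Set E} (hB : Convex ℝ B) (D : E →ₗ[ℂ] ℂ) (h0 : ∀ v ∈ B, D v ≠ 0)
    {v v' : E} (hv : v ∈ B) (hv' : v' ∈ B) : D v / D v' ∈ slitPlane := by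
  by_contra hcon
  rw [mem_slitPlane_iff] at hcon
  push Not at hcon
  obtain ⟨hre, him⟩ := hcon
  have hz' := h0 v' hv'
  -- `D v = -s * D v'`
  set s : ℝ := -(D v / D v').re with hs
  have hs0 : 0 ≤ s := by rw [hs]; linarith
  have hq : D v / D v' = ((-s : ℝ) : ℂ) := by
    apply Complex.ext
    · simp [hs]
    · simpa using him
  have hDv : D v = ((-s : ℝ) : ℂ) * D v' := by
    rw [← hq]; field_simp
  have h1s : (0 : ℝ) < 1 + s := by linarith
  have hmem : (1 / (1 + s)) • v + (s / (1 + s)) • v' ∈ B := by
    apply hB hv hv' (by positivity) (by positivity)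
    field_simp
  apply h0 _ hmem
  have e1 : ∀ (r : ℝ) (x : E), D (r • x) = (r : ℂ) * D x := by
    intro r x
    have : r • x = (r : ℂ) • x := by
      have h := smul_assoc r (1 : ℂ) x
      rw [one_smul] at h
      rw [← h]
      congr 1
      simp
    rw [this, map_smul, smul_eq_mul]
  rw [map_add, e1, e1, hDv]
  push_cast
  have : (1 : ℂ) + (s : ℂ) ≠ 0 := by
    have : ((1 + s : ℝ) : ℂ) ≠ 0 := by exact_mod_cast h1s.ne'
    simpa using this
  field_simp
  ring

/-- Hermitian form of a matrix, real part -/
noncomputable def hform {n : Type*} [Fintype n] (H : Matrix n n ℂ) (v : n → ℂ) : ℝ :=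
  (star v ⬝ᵥ H.mulVec v).re

theorem hform_smul {n : Type*} [Fintype n] (H : Matrix n n ℂ) (c : ℂ) (v : n → ℂ) :
    hform H (c • v) = ‖c‖ ^ 2 * hform H v := by
  unfold hform
  rw [Matrix.mulVec_smul, star_smul, smul_dotProduct, dotProduct_smul, smul_smul, smul_eq_mul]
  have : star c * c = ((‖c‖ ^ 2 : ℝ) : ℂ) := by
    rw [Complex.star_def, mul_comm, Complex.mul_conj, Complex.normSq_eq_norm_sq]
  rw [this, Complex.re_ofReal_mul]

/-- the ball of a Hermitian form which is nonpositive on the hyperplane `v i = 0`, in the chart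
`v i = 1`, is convex -/
theorem convex_ball {n : Type*} [Fintype n] [DecidableEq n] {H : Matrix n n ℂ}
    (hH : H.IsHermitian) (i : n) (hneg : ∀ v : n → ℂ, v i = 0 → hform H v ≤ 0) :
    Convex ℝ {v : n → ℂ | v i = 1 ∧ 0 ≤ hform H v} := by
  intro v hv w hw a b ha hb hab
  obtain ⟨hv1, hv2⟩ := hv
  obtain ⟨hw1, hw2⟩ := hw
  refine ⟨?_, ?_⟩
  · simp only [Pi.add_apply, Pi.smul_apply, hv1, hw1, Complex.real_smul, mul_one]
    exact_mod_cast hab
  · -- identity: Q(a v + b w) = a Q v + b Q w - a b Q(v - w)
    have key : hform H (a • v + b • w) = a * hform H v + b * hform H w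
        - a * b * hform H (v - w) := by
      have hsw : star w ⬝ᵥ H.mulVec v = star (star v ⬝ᵥ H.mulVec w) := by
        have h1 : star (H.mulVec w) ⬝ᵥ v = star w ⬝ᵥ H.mulVec v := by
          rw [Matrix.star_mulVec, hH.eq, ← Matrix.dotProduct_mulVec]
        rw [← h1, Matrix.star_dotProduct, dotProduct_comm]
      have hb' : b = 1 - a := by linarith
      unfold hform
      have sa : star (a • v + b • w) = a • star v + b • star w := by
        rw [star_add]
        congr 1 <;> · ext j; simp
      have ma : H.mulVec (a • v + b • w) = a • H.mulVec v + b • H.mulVec w := by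
        rw [Matrix.mulVec_add, Matrix.mulVec_smul, Matrix.mulVec_smul]
      rw [sa, ma, star_sub, Matrix.mulVec_sub]
      simp only [add_dotProduct, dotProduct_add, smul_dotProduct, dotProduct_smul, sub_dotProduct,
        dotProduct_sub, Complex.add_re, Complex.sub_re, Complex.real_smul, Complex.re_ofReal_mul]
      rw [hsw]
      have : (star (star v ⬝ᵥ H.mulVec w)).re = (star v ⬝ᵥ H.mulVec w).re := by
        rw [Complex.star_def, Complex.conj_re]
      rw [this, hb']
      ring
    rw [key]
    have h3 : hform H (v - w) ≤ 0 := by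
      apply hneg
      simp [hv1, hw1]
    have := mul_nonneg ha hv2
    have := mul_nonneg hb hw2
    have := mul_nonneg ha hb
    nlinarith

end Pool.Agent.Helper42.CH
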