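import Mathlib

/-!
MP_c75db0, complex line route: all powers of an element with a simple eigenvalue `ν` and a pair
`m e^{±d}` (helper65's form, typed here).
-/

set_option autoImplicit false

namespace Pool.Agent.Helper42.CH

open Matrix

variable {n : Type*} [Fintype n] [DecidableEq n]

/-- `r_{q+1}`; `bqR ch 0 = r_1 = ch` -/
noncomputable def bqR (ch : ℂ) : ℕ → ℂ
  | 0 => ch
  | q + 1 => (ch * bqR ch q + (ch ^ 2 - 1)) / (ch + bqR ch q)

/-- `rho_{q+1}`; `g = nu / m` -/
noncomputable def bqRho (ch g : ℂ) : ℕ → ℂ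
  | 0 => g
  | q + 1 => g * bqRho ch g q / (ch + bqR ch q)

/-- the scalar -/
noncomputable def bqC (ch m : ℂ) : ℕ → ℂ
  | 0 => m
  | q + 1 => m * bqC ch m q * (ch + bqR ch q)

/-- projector to the simple eigenvalue -/
noncomputable def bqP (W : Matrix n n ℂ) (ν m ch : ℂ) : Matrix n n ℂ :=
  (ν ^ 2 - 2 * m * ch * ν + m ^ 2)⁻¹ • (W * W - (2 * m * ch) • W + (m ^ 2) • (1 : Matrix n n ℂ))

/-- complementary projector -/
noncomputable def bqQ (W : Matrix n n ℂ) (ν m ch : ℂ) : Matrix n n ℂ := 1 - bqP W ν m ch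

/-- the nilpotent-like part -/
noncomputable def bqN (W : Matrix n n ℂ) (ν m ch : ℂ) : Matrix n n ℂ :=
  m⁻¹ • (W * bqQ W ν m ch) - ch • bqQ W ν m ch

section

variable {W : Matrix n n ℂ} {ν m ch : ℂ}

theorem bq_rel (hm : m ≠ 0) (hD : ν ^ 2 - 2 * m * ch * ν + m ^ 2 ≠ 0)
    (hmin : (W - ν • (1 : Matrix n n ℂ)) *
      (W * W - (2 * m * ch) • W + (m ^ 2) • (1 : Matrix n n ℂ)) = 0) :
    W * bqP W ν m ch = ν • bqP W ν m ch ∧
    W * bqQ W ν m ch = m • (bqN W ν m ch + ch • bqQ W ν m ch) ∧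
    W * bqN W ν m ch = m • (ch • bqN W ν m ch + (ch ^ 2 - 1) • bqQ W ν m ch) := by
  set D := ν ^ 2 - 2 * m * ch * ν + m ^ 2 with hDd
  set C := W * W - (2 * m * ch) • W + (m ^ 2) • (1 : Matrix n n ℂ) with hC
  have hP : bqP W ν m ch = D⁻¹ • C := rfl
  have hWC : W * C = ν • C := by
    have : W * C - ν • C = 0 := by
      rw [← hmin, sub_mul, smul_mul_assoc, one_mul]
    exact sub_eq_zero.1 this
  have h1 : W * bqP W ν m ch = ν • bqP W ν m ch := by
    rw [hP, mul_smul_comm, hWC, smul_smul, smul_smul, mul_comm]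
  have h2 : W * bqQ W ν m ch = m • (bqN W ν m ch + ch • bqQ W ν m ch) := by
    unfold bqN
    rw [sub_add_cancel, smul_smul, mul_inv_cancel₀ hm, one_smul]
  refine ⟨h1, h2, ?_⟩
  -- W^2 Q = (2 m ch) W Q - m^2 Q
  have hC0 : C * bqQ W ν m ch = 0 := by
    -- C * C = D C
    have hCC : C * C = D • C := by
      have hcomm : W * W * C = (ν ^ 2) • C := by
        rw [mul_assoc, hWC, mul_smul_comm, hWC, smul_smul]
        congr 1; ring
      have : C * C = W * W * C - (2 * m * ch) • (W * C) + (m ^ 2) • C := by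
        conv_lhs => rw [hC]
        rw [add_mul, sub_mul, smul_mul_assoc, smul_mul_assoc, one_mul, ← hC]
      rw [this, hcomm, hWC]
      ext i j
      simp only [Matrix.add_apply, Matrix.sub_apply, Matrix.smul_apply, smul_eq_mul, hDd]
      ring
    unfold bqQ
    rw [hP, mul_sub, mul_one, mul_smul_comm, hCC, smul_smul, inv_mul_cancel₀ hD, one_smul,
      sub_self]
  have hWWQ : W * (W * bqQ W ν m ch)
      = (2 * m * ch) • (W * bqQ W ν m ch) - (m ^ 2) • bqQ W ν m ch := by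
    have h3 : C * bqQ W ν m ch = W * (W * bqQ W ν m ch) - (2 * m * ch) • (W * bqQ W ν m ch)
        + (m ^ 2) • bqQ W ν m ch := by
      rw [hC, add_mul, sub_mul, smul_mul_assoc, smul_mul_assoc, one_mul, mul_assoc]
    rw [hC0] at h3
    have h4 : W * (W * bqQ W ν m ch) = (0 : Matrix n n ℂ) + (2 * m * ch) • (W * bqQ W ν m ch)
        - (m ^ 2) • bqQ W ν m ch := by
      rw [h3]; abel
    rw [h4, zero_add]
  have h5 : W * bqN W ν m ch = m⁻¹ • (W * (W * bqQ W ν m ch)) - ch • (W * bqQ W ν m ch) := by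
    unfold bqN
    rw [mul_sub, mul_smul_comm, mul_smul_comm]
  rw [h5, hWWQ, h2]
  ext i j
  simp only [Matrix.add_apply, Matrix.sub_apply, Matrix.smul_apply, smul_eq_mul]
  field_simp
  ring

/-- all powers -/
theorem bq_pow (hm : m ≠ 0) (hD : ν ^ 2 - 2 * m * ch * ν + m ^ 2 ≠ 0)
    (hmin : (W - ν • (1 : Matrix n n ℂ)) *
      (W * W - (2 * m * ch) • W + (m ^ 2) • (1 : Matrix n n ℂ)) = 0)
    (hr : ∀ q, ch + bqR ch q ≠ 0) (q : ℕ) :
    bqC ch m q ≠ 0 ∧
    W ^ (q + 1) = bqC ch m q • (bqN W ν m ch + bqR ch q • bqQ W ν m ch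
      + bqRho ch (ν / m) q • bqP W ν m ch) := by
  obtain ⟨r1, r2, r3⟩ := bq_rel hm hD hmin
  induction q with
  | zero =>
    refine ⟨by simpa [bqC] using hm, ?_⟩
    simp only [bqC, bqR, bqRho, zero_add, pow_one]
    have h1 : W = W * bqQ W ν m ch + W * bqP W ν m ch := by
      rw [← mul_add]
      unfold bqQ
      rw [sub_add_cancel, mul_one]
    conv_lhs => rw [h1, r1, r2]
    rw [smul_add, smul_add, smul_smul, smul_smul, smul_add, smul_smul]
    congr 2
    field_simp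
  | succ q ih =>
    obtain ⟨ihc, ihW⟩ := ih
    set R := bqR ch q with hR
    set c := bqC ch m q with hc
    set ρ := bqRho ch (ν / m) q with hρ
    have hne : ch + R ≠ 0 := hr q
    refine ⟨?_, ?_⟩
    · simp only [bqC]
      exact mul_ne_zero (mul_ne_zero hm ihc) hne
    · rw [pow_succ', ihW, mul_smul_comm, mul_add, mul_add, mul_smul_comm, mul_smul_comm, r1, r2,
        r3]
      simp only [bqC, bqR, bqRho]
      rw [← hR, ← hc, ← hρ]
      ext i j
      simp only [Matrix.add_apply, Matrix.smul_apply, smul_eq_mul]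
      field_simp
      ring

end

/-- trapping of the parameters in finitely many regions -/
theorem bq_trap {ch g : ℂ} {K : ℕ} (R : ℕ → Set (ℂ × ℂ)) (h0 : (ch, g) ∈ R 0)
    (hstep : ∀ i < K, ∀ x ∈ R i,
      ((ch * x.1 + (ch ^ 2 - 1)) / (ch + x.1), g * x.2 / (ch + x.1)) ∈ R (i + 1))
    (hlast : ∀ x ∈ R K,
      ((ch * x.1 + (ch ^ 2 - 1)) / (ch + x.1), g * x.2 / (ch + x.1)) ∈ R K) (q : ℕ) :
    (bqR ch q, bqRho ch g q) ∈ R (min q K) := by
  induction q with
  | zero => simpa [bqR, bqRho] using h0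
  | succ q ih =>
    simp only [bqR, bqRho]
    rcases lt_or_ge q K with h | h
    · rw [Nat.min_eq_left h.le] at ih
      rw [Nat.min_eq_left (by omega)]
      exact hstep q h _ ih
    · rw [Nat.min_eq_right h] at ih
      rw [Nat.min_eq_right (by omega)]
      exact hlast _ ih

end Pool.Agent.Helper42.CH
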