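import Mathlib

/-!
MP_c75db0, complex line route, step R3: a real polynomial without zeros in the region
`|w^2 - c| < 1 - c` has `|P(i √s)|^2 / (1+s)^N` nonincreasing on `[0, 1 - 2c]`.
-/

set_option autoImplicit false

namespace Pool.Agent.Helper42.CH

open Complex Polynomial

/-- one factor -/
theorem factor_mono {c t t' : ℝ} (v : ℂ) (ht : 0 < t) (htt : t ≤ t')
    (ht' : t' ≤ 2 * (1 - c)) (hv : 1 - c ≤ ‖v + ((1 - c : ℝ) : ℂ)‖) :
    ‖v + (t' : ℂ)‖ * t ≤ ‖v + (t : ℂ)‖ * t' := by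
  have hc : 0 < 1 - c := by linarith
  have ht'0 : 0 < t' := lt_of_lt_of_le ht htt
  have nsq : ∀ r : ℝ, ‖v + (r : ℂ)‖ ^ 2 = v.re ^ 2 + v.im ^ 2 + 2 * r * v.re + r ^ 2 := by
    intro r
    rw [← Complex.normSq_eq_norm_sq, Complex.normSq_apply]
    simp
    ring
  have h1 : (1 - c) ^ 2 ≤ ‖v + ((1 - c : ℝ) : ℂ)‖ ^ 2 := by
    apply pow_le_pow_left₀ hc.le hv
  rw [nsq] at h1
  -- |v|^2 + 2 (1-c) Re v >= 0
  have h2 : 0 ≤ v.re ^ 2 + v.im ^ 2 + 2 * (1 - c) * v.re := by linarith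
  have h3 : 0 ≤ (v.re ^ 2 + v.im ^ 2) * (t + t') + 2 * (t * t') * v.re := by
    rcases le_or_gt 0 v.re with hre | hre
    · have : 0 ≤ (v.re ^ 2 + v.im ^ 2) * (t + t') := by positivity
      have : 0 ≤ 2 * (t * t') * v.re := by positivity
      linarith
    · -- t t' <= (t + t') * t' / 2 <= (t + t') (1 - c)
      have h4 : t * t' ≤ (t + t') * (1 - c) := by nlinarith
      have h5 : 2 * (t * t') * v.re ≥ 2 * ((t + t') * (1 - c)) * v.re := by nlinarith
      have h6 : 0 ≤ (t + t') * (v.re ^ 2 + v.im ^ 2 + 2 * (1 - c) * v.re) := by positivity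
      nlinarith
  apply le_of_sq_le_sq _ (by positivity)
  rw [mul_pow, mul_pow, nsq, nsq]
  nlinarith [mul_nonneg (sub_nonneg.2 htt) h3]

theorem root_factor_mono {c s s' : ℝ} (ρ : ℂ) (hs : 0 ≤ s) (hss : s ≤ s')
    (hs' : s' ≤ 1 - 2 * c) (hρ : 1 - c ≤ ‖ρ ^ 2 - (c : ℂ)‖) :
    ‖ρ ^ 2 + (s' : ℂ)‖ * (1 + s) ≤ ‖ρ ^ 2 + (s : ℂ)‖ * (1 + s') := by
  have h := factor_mono (c := c) (t := 1 + s) (t' := 1 + s') (ρ ^ 2 - 1) (by linarith)
    (by linarith) (by linarith) (by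
      have : ρ ^ 2 - 1 + ((1 - c : ℝ) : ℂ) = ρ ^ 2 - (c : ℂ) := by push_cast; ring
      rw [this]; exact hρ)
  have e1 : ρ ^ 2 - 1 + ((1 + s' : ℝ) : ℂ) = ρ ^ 2 + (s' : ℂ) := by push_cast; ring
  have e2 : ρ ^ 2 - 1 + ((1 + s : ℝ) : ℂ) = ρ ^ 2 + (s : ℂ) := by push_cast; ring
  rw [e1, e2] at h
  exact h

/-- modulus of a real polynomial on the imaginary axis, by its roots -/
theorem normSq_eval_I (P : ℝ[X]) (s : ℝ) (hs : 0 ≤ s) :
    ‖(P.map (algebraMap ℝ ℂ)).eval (Complex.I * (Real.sqrt s : ℂ))‖ ^ 2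
      = P.leadingCoeff ^ 2 *
        ((P.map (algebraMap ℝ ℂ)).roots.map (fun ρ => ‖ρ ^ 2 + (s : ℂ)‖)).prod := by
  set Q := P.map (algebraMap ℝ ℂ) with hQ
  set w : ℂ := Complex.I * (Real.sqrt s : ℂ) with hw
  have hconj : (starRingEnd ℂ) w = -w := by
    rw [hw]; simp
  have hw2 : w ^ 2 = -(s : ℂ) := by
    rw [hw, mul_pow, Complex.I_sq, ← Complex.ofReal_pow, Real.sq_sqrt hs]; ring
  have hev : (starRingEnd ℂ) (Q.eval w) = Q.eval (-w) := by
    rw [← hconj, hQ, Polynomial.eval_map, Polynomial.eval_map,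
      Polynomial.hom_eval₂]
    congr 1
    ext x
    simp
  have hsplit : Q.Splits := IsAlgClosed.splits Q
  have hfac : Q = C Q.leadingCoeff * (Q.roots.map (fun a => X - C a)).prod :=
    hsplit.eq_prod_roots
  have hlead : Q.leadingCoeff = (P.leadingCoeff : ℂ) := by
    rw [hQ, Polynomial.leadingCoeff_map]; rfl
  have e : ∀ z : ℂ, Q.eval z = (P.leadingCoeff : ℂ) * (Q.roots.map (fun a => z - a)).prod := by
    intro z
    conv_lhs => rw [hfac]
    rw [Polynomial.eval_mul, Polynomial.eval_C, hlead, Polynomial.eval_multiset_prod,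
      Multiset.map_map]
    congr 2
    apply Multiset.map_congr rfl
    intro a _
    simp
  have h1 : ((‖Q.eval w‖ ^ 2 : ℝ) : ℂ) = Q.eval w * Q.eval (-w) := by
    rw [← hev, Complex.mul_conj, Complex.normSq_eq_norm_sq]
  have h2 : Q.eval w * Q.eval (-w)
      = ((P.leadingCoeff : ℝ) : ℂ) ^ 2 * (Q.roots.map (fun ρ => ρ ^ 2 + (s : ℂ))).prod := by
    rw [e w, e (-w)]
    have : (Q.roots.map (fun a => w - a)).prod * (Q.roots.map (fun a => -w - a)).prod
        = (Q.roots.map (fun ρ => ρ ^ 2 + (s : ℂ))).prod := by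
      rw [← Multiset.prod_map_mul]
      congr 1
      apply Multiset.map_congr rfl
      intro a _
      have : (s : ℂ) = -w ^ 2 := by rw [hw2]; ring
      rw [this]; ring
    rw [← this]; ring
  have h3 : ‖Q.eval w‖ ^ 2 = ‖Q.eval w * Q.eval (-w)‖ := by
    rw [← h1, Complex.norm_real, Real.norm_of_nonneg (by positivity)]
  rw [h3, h2, norm_mul, norm_pow, Complex.norm_real, Real.norm_eq_abs, sq_abs]
  congr 1
  have hn : ∀ m : Multiset ℂ, ‖(m.map (fun ρ => ρ ^ 2 + (s : ℂ))).prod‖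
      = (m.map (fun ρ => ‖ρ ^ 2 + (s : ℂ)‖)).prod := by
    intro m
    induction m using Multiset.induction_on with
    | empty => simp
    | cons a m ih =>
      rw [Multiset.map_cons, Multiset.prod_cons, Multiset.map_cons, Multiset.prod_cons, norm_mul,
        ih]
  exact hn _

/-- R3 -/
theorem normSq_div_pow_antitone {c : ℝ} (P : ℝ[X]) {N : ℕ} (hN : P.natDegree ≤ N)
    (hroot : ∀ ρ : ℂ, (P.map (algebraMap ℝ ℂ)).eval ρ = 0 → 1 - c ≤ ‖ρ ^ 2 - (c : ℂ)‖)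
    {s s' : ℝ} (hs : 0 ≤ s) (hss : s ≤ s') (hs' : s' ≤ 1 - 2 * c) :
    ‖(P.map (algebraMap ℝ ℂ)).eval (Complex.I * (Real.sqrt s' : ℂ))‖ ^ 2 / (1 + s') ^ N
      ≤ ‖(P.map (algebraMap ℝ ℂ)).eval (Complex.I * (Real.sqrt s : ℂ))‖ ^ 2 / (1 + s) ^ N := by
  have hs'0 : 0 ≤ s' := hs.trans hss
  rw [normSq_eval_I P s hs, normSq_eval_I P s' hs'0]
  set Q := P.map (algebraMap ℝ ℂ) with hQ
  by_cases hP : P = 0
  · subst hP; simp
  have hcard : Multiset.card Q.roots = P.natDegree := by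
    have h := (IsAlgClosed.splits Q).natDegree_eq_card_roots
    rw [← h, hQ, Polynomial.natDegree_map]
  have hQ0 : Q ≠ 0 := by
    rw [hQ]; exact (Polynomial.map_ne_zero_iff (algebraMap ℝ ℂ).injective).2 hP
  -- product inequality over a multiset of good roots
  have key : ∀ m : Multiset ℂ, (∀ ρ ∈ m, 1 - c ≤ ‖ρ ^ 2 - (c : ℂ)‖) →
      (m.map (fun ρ => ‖ρ ^ 2 + (s' : ℂ)‖)).prod * (1 + s) ^ (Multiset.card m)
        ≤ (m.map (fun ρ => ‖ρ ^ 2 + (s : ℂ)‖)).prod * (1 + s') ^ (Multiset.card m) := by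
    intro m
    induction m using Multiset.induction_on with
    | empty => intro _; simp
    | cons a m ih =>
      intro hm
      have h1 := ih (fun ρ hρ => hm ρ (Multiset.mem_cons_of_mem hρ))
      have h2 := root_factor_mono (c := c) a hs hss hs' (hm a (Multiset.mem_cons_self a m))
      rw [Multiset.map_cons, Multiset.prod_cons, Multiset.map_cons, Multiset.prod_cons,
        Multiset.card_cons, pow_succ, pow_succ]
      have p1 : 0 ≤ (m.map (fun ρ => ‖ρ ^ 2 + (s' : ℂ)‖)).prod := by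
        apply Multiset.prod_nonneg
        intro x hx
        obtain ⟨ρ, _, rfl⟩ := Multiset.mem_map.1 hx
        exact norm_nonneg _
      calc ‖a ^ 2 + (s' : ℂ)‖ * (m.map (fun ρ => ‖ρ ^ 2 + (s' : ℂ)‖)).prod
            * ((1 + s) ^ (Multiset.card m) * (1 + s))
          = (‖a ^ 2 + (s' : ℂ)‖ * (1 + s)) *
            ((m.map (fun ρ => ‖ρ ^ 2 + (s' : ℂ)‖)).prod * (1 + s) ^ (Multiset.card m)) := by
              ring
        _ ≤ (‖a ^ 2 + (s : ℂ)‖ * (1 + s')) *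
            ((m.map (fun ρ => ‖ρ ^ 2 + (s : ℂ)‖)).prod * (1 + s') ^ (Multiset.card m)) := by
              apply mul_le_mul h2 h1 (by positivity) (by positivity)
        _ = ‖a ^ 2 + (s : ℂ)‖ * (m.map (fun ρ => ‖ρ ^ 2 + (s : ℂ)‖)).prod
            * ((1 + s') ^ (Multiset.card m) * (1 + s')) := by ring
  have hk := key Q.roots (by
    intro ρ hρ
    exact hroot ρ ((Polynomial.mem_roots hQ0).1 hρ))
  rw [hcard] at hk
  set d := P.natDegree with hd
  have hsp : 0 < 1 + s := by linarith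
  have hsp' : 0 < 1 + s' := by linarith
  rw [div_le_div_iff₀ (by positivity) (by positivity)]
  obtain ⟨k, rfl⟩ := Nat.exists_eq_add_of_le hN
  have hpk : (1 + s) ^ k ≤ (1 + s') ^ k := pow_le_pow_left₀ hsp.le (by linarith) k
  have p2 : 0 ≤ (Q.roots.map (fun ρ => ‖ρ ^ 2 + (s : ℂ)‖)).prod := by
    apply Multiset.prod_nonneg
    intro x hx
    obtain ⟨ρ, _, rfl⟩ := Multiset.mem_map.1 hx
    exact norm_nonneg _
  calc P.leadingCoeff ^ 2 * (Q.roots.map (fun ρ => ‖ρ ^ 2 + (s' : ℂ)‖)).prod * (1 + s) ^ (d + k)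
      = P.leadingCoeff ^ 2 *
        (((Q.roots.map (fun ρ => ‖ρ ^ 2 + (s' : ℂ)‖)).prod * (1 + s) ^ d) * (1 + s) ^ k) := by
          rw [pow_add]; ring
    _ ≤ P.leadingCoeff ^ 2 *
        (((Q.roots.map (fun ρ => ‖ρ ^ 2 + (s : ℂ)‖)).prod * (1 + s') ^ d) * (1 + s') ^ k) := by
          apply mul_le_mul_of_nonneg_left _ (by positivity)
          apply mul_le_mul hk hpk (by positivity) (by positivity)
    _ = _ := by rw [pow_add]; ring

end Pool.Agent.Helper42.CH
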